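import Pool.Agent.Lib.MP_7aa09c_an.Main

/-!
Problem MP_7aa09c_an, question Q2, negative answer: the BPBp does not pass to one-complemented
subspaces of the range space.
-/

namespace Pool.Agent.Results.MP_7aa09c_an.BPBpRange

open Pool.Agent.Lib.MP_7aa09c_an

/-- Over `ℝ` and over `ℂ` there are Banach spaces `X` (two-dimensional) and `Y` and a
one-complemented closed subspace `Y₁` of `Y` such that `(X, Y)` has the BPBp
but `(X, Y₁)` does not have it. -/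
theorem result (𝕜 : Type) [RCLike 𝕜] :
    ∃ (X Y : Type) (_ : NormedAddCommGroup X) (_ : NormedSpace 𝕜 X) (_ : CompleteSpace X)
      (_ : NormedAddCommGroup Y) (_ : NormedSpace 𝕜 Y) (_ : CompleteSpace Y)
      (Y₁ : Submodule 𝕜 Y),
      Module.finrank 𝕜 X = 2 ∧ IsClosed (Y₁ : Set Y) ∧ OneComplemented 𝕜 Y₁ ∧
        BPBp 𝕜 X Y ∧ ¬ BPBp 𝕜 X Y₁ := by
  obtain ⟨X, Y, i1, i2, i3, i4, i5, i6, Y₁, h1, h2, h3, h4, h5⟩ := exists_example 𝕜
  exact ⟨X, Y, i1, i2, i3, i4, i5, i6, Y₁, h1, h2, h3, h4.bpbp 𝕜, h5⟩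

end Pool.Agent.Results.MP_7aa09c_an.BPBpRange
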